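import Pool.Agent.Helper5.ST.GoalsB

/-!
Packet EXT.
-/

namespace Pool.Agent.Helper10.ST

open Pool.Agent.Helper5.Gap Pool.Agent.Helper5.ST
open scoped commutatorElement

universe u

theorem virtNilpotent_of_equiv {G : Type*} {G' : Type*} [Group G] [Group G'] (e : G ≃* G')
    (h : VirtNilpotent G) : VirtNilpotent G' := by
  obtain ⟨H, hH, hn⟩ := h
  refine ⟨H.map e.toMonoidHom, ?_, ?_⟩
  · refine ⟨?_⟩
    rw [Subgroup.index_map_of_bijective e.bijective]
    exact hH.index_ne_zero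
  · exact Group.nilpotent_of_mulEquiv (H.equivMapOfInjective e.toMonoidHom e.injective)

theorem finite_map_mk {H : Type*} [Group H] (N P : Subgroup H) [N.Normal] [P.Normal]
    (h : N.relIndex P ≠ 0) : Finite (P.map (QuotientGroup.mk' N)) := by
  have hfi : (N.subgroupOf P).FiniteIndex := ⟨h⟩
  have hfin : Finite (P ⧸ N.subgroupOf P) := inferInstance
  let f : P ⧸ N.subgroupOf P → P.map (QuotientGroup.mk' N) :=
    fun x => Quotient.liftOn' x (fun p => ⟨QuotientGroup.mk' N p, ⟨p, p.2, rfl⟩⟩) (by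
      intro a b hab
      rw [QuotientGroup.leftRel_apply, Subgroup.mem_subgroupOf] at hab
      apply Subtype.ext
      exact (QuotientGroup.eq).2 hab)
  refine Finite.of_surjective f ?_
  rintro ⟨_, ⟨p, hp, rfl⟩⟩
  exact ⟨QuotientGroup.mk ⟨p, hp⟩, rfl⟩

theorem virtNilpotent_quotient {H : Type u} [Group H] (N P : Subgroup H) [N.Normal] [P.Normal]
    (hNP : N ≤ P) (h : N.relIndex P ≠ 0) (hv : VirtNilpotent (H ⧸ P)) :
    VirtNilpotent (H ⧸ N) := by
  have h1 : Finite (P.map (QuotientGroup.mk' N)) := finite_map_mk N P h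
  have h2 : (P.map (QuotientGroup.mk' N)).Normal := inferInstance
  refine virtNilpotent_of_finite_normal (P.map (QuotientGroup.mk' N)) ?_
  exact virtNilpotent_of_equiv (QuotientGroup.quotientQuotientEquivQuotient N P hNP).symm hv

theorem ext (charN : SCharN.{u}) (hcoc : SCoc.{u}) (lb : SLb.{u}) (uni : SUni.{u})
    (hall : SHall.{u}) : SExt.{u} := by
  intro H _ S hS hSt P hP hPfg hPP hHP hPv n K R hRk hg hR
  classical
  obtain ⟨N, hNn, hNP, hNrel, hNnil⟩ := charN H P hPfg hPv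
  -- `N` is finitely generated
  have hNfg : N.FG := by
    have h1 : Group.FG P := by rw [Group.fg_iff_subgroup_fg]; exact hPfg
    have hfi : (N.subgroupOf P).FiniteIndex := ⟨hNrel⟩
    have h2 : Group.FG (N.subgroupOf P) := inferInstance
    have h3 : Group.FG N := Group.fg_of_surjective
      (f := (Subgroup.subgroupOfEquivOfLe hNP).toMonoidHom)
      (Subgroup.subgroupOfEquivOfLe hNP).surjective
    rw [← Group.fg_iff_subgroup_fg]
    exact h3
  obtain ⟨m, θ, P', hsurj, hadd, hconj, hker, G₁, hG₁, hG₁'⟩ := exists_section N hNfg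
  have hθ1 : θ 1 = 0 := by
    have := hadd 1 1
    rw [mul_one] at this
    simpa using this
  have hθinv : ∀ x, θ x⁻¹ = - θ x := by
    intro x
    have := hadd x x⁻¹
    rw [mul_inv_cancel, hθ1] at this
    exact (neg_eq_of_add_eq_zero_right this.symm).symm
  obtain ⟨ι, hι⟩ : ∃ ι : N → (Fin m → ℚ), ι = fun d i => ((θ d i : ℤ) : ℚ) := ⟨_, rfl⟩
  have hιadd : ∀ x y, ι (x * y) = ι x + ι y := by
    intro x y
    ext i
    simp [hι, hadd]
  have hι1 : ι 1 = 0 := by
    ext i
    simp [hι, hθ1]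
  have hιinv : ∀ x, ι x⁻¹ = - ι x := by
    intro x
    ext i
    simp [hι, hθinv]
  have hιconj : ∀ (g : H) (d : N), ι (MulAut.conjNormal g d) = ratRep P' g (ι d) := by
    intro g d
    rw [hι]
    ext i
    show (((θ (MulAut.conjNormal g d)) i : ℤ) : ℚ) = Matrix.toLin' _ _ i
    rw [hconj, Matrix.toLin'_apply]
    simp [Matrix.mulVec, dotProduct]
  have hspan : Submodule.span ℚ (Set.range ι) = ⊤ := by
    rw [eq_top_iff]
    intro v _
    rw [pi_eq_sum_univ v]
    refine Submodule.sum_mem _ (fun i _ => Submodule.smul_mem _ _ (Submodule.subset_span ?_))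
    obtain ⟨d, hd⟩ := hsurj (fun j => if i = j then 1 else 0)
    refine ⟨d, ?_⟩
    rw [hι]
    ext j
    simp only [hd]
    split_ifs <;> simp
  have hmn : m ≤ n := by
    refine hRk N hNP m ι hιadd ?_ hspan
    intro x hx
    have : x = 1 := Subtype.ext (by simpa using hx)
    rw [this, hι1]
  obtain ⟨v, hv, hvι⟩ := hcoc H N P hNP hNrel hPP m ι (ratRep P') hιadd hιconj hspan
  -- `H / N` is virtually nilpotent
  obtain ⟨Q, hQ, hQnil⟩ := virtNilpotent_quotient N P hNP hNrel hHP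
  obtain ⟨C, hC⟩ : ∃ C : Subgroup H, C = Q.comap (QuotientGroup.mk' N) := ⟨_, rfl⟩
  have hCfi : C.FiniteIndex := ⟨by
    rw [hC, Subgroup.index_comap_of_surjective _ (QuotientGroup.mk'_surjective N)]
    exact hQ.index_ne_zero⟩
  have hNC : N ≤ C := by
    intro x hx
    rw [hC, Subgroup.mem_comap]
    have : QuotientGroup.mk' N x = 1 := (QuotientGroup.eq_one_iff x).2 hx
    rw [this]
    exact Q.one_mem
  have hCsol : Group.IsSolvable C := by
    have hNsol : Group.IsSolvable N := inferInstance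
    have hQsol : Group.IsSolvable Q := inferInstance
    let g : C →* Q :=
      { toFun := fun x => ⟨QuotientGroup.mk' N x, (hC.le x.2 : (x : H) ∈ Q.comap (QuotientGroup.mk' N))⟩
        map_one' := by ext; simp
        map_mul' := by intro x y; ext; simp }
    refine Group.isSolvable_of_ker_le_range (Subgroup.inclusion hNC) g ?_
    intro x hx
    have h2 : g x = 1 := hx
    have h3 := congrArg (fun z : Q => (z : H ⧸ N)) h2
    have h4 : (x : H) ∈ N := (QuotientGroup.eq_one_iff (x : H)).1 h3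
    exact ⟨⟨x, h4⟩, rfl⟩
  have hΦ : ∀ Φ : H →* GL (Fin (m + 1)) ℚ, VirtNilpotent Φ.range := by
    intro Φ
    refine lb H S hS hSt ⟨C, hCfi, hCsol⟩ (m + 1) Φ K R (by omega) hg (le_trans ?_ hR)
    gcongr
  obtain ⟨A, hAn, hAfi, c, W, hW0, hWc, hW⟩ := uni H N m ι (ratRep P') v hιadd hιconj hspan hv hvι hΦ
  obtain ⟨B, hB⟩ : ∃ B : Subgroup H, B = (A ⊓ G₁ ⊓ C).normalCore := ⟨_, rfl⟩
  have hBn : B.Normal := by rw [hB]; infer_instance
  have hBfi : B.FiniteIndex := by rw [hB]; infer_instance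
  have hBle : B ≤ A ⊓ G₁ ⊓ C := by rw [hB]; exact Subgroup.normalCore_le _
  have hBA : ∀ b ∈ B, b ∈ A := fun b hb => (hBle hb).1.1
  have hBG : ∀ b ∈ B, b ∈ G₁ := fun b hb => (hBle hb).1.2
  have hBC : ∀ b ∈ B, b ∈ C := fun b hb => (hBle hb).2
  let M : Submodule ℚ (Fin m → ℚ) → Subgroup H := fun U =>
    Subgroup.map N.subtype
      { carrier := {d | ι d ∈ U}
        mul_mem' := by
          intro a b ha hb
          show ι (a * b) ∈ U
          rw [hιadd]; exact U.add_mem ha hb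
        one_mem' := by
          show ι 1 ∈ U
          rw [hι1]; exact U.zero_mem
        inv_mem' := by
          intro a ha
          show ι a⁻¹ ∈ U
          rw [hιinv]; exact U.neg_mem ha }
  have hM : ∀ U (d : N), (d : H) ∈ M U ↔ ι d ∈ U := by
    intro U d
    constructor
    · rintro ⟨d', hd', he⟩
      have : d' = d := Subtype.ext he
      rw [← this]
      exact hd'
    · intro h
      exact ⟨d, h, rfl⟩
  have hMN : ∀ U, M U ≤ N := by
    rintro U _ ⟨d, _, rfl⟩
    exact d.2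
  have hstep : ∀ (x g : H) (hx : x ∈ N), x * g * x⁻¹ * g⁻¹ ∈ N ∧
      ∀ h : x * g * x⁻¹ * g⁻¹ ∈ N, ι ⟨_, h⟩ = - (ratRep P' g (ι ⟨x, hx⟩) - ι ⟨x, hx⟩) := by
    intro x g hx
    have h1 : x * g * x⁻¹ * g⁻¹ = x * (g * x⁻¹ * g⁻¹) := by group
    have h2 : g * x⁻¹ * g⁻¹ ∈ N := hNn.conj_mem _ (N.inv_mem hx) g
    refine ⟨h1 ▸ N.mul_mem hx h2, fun h => ?_⟩
    have h3 : (⟨x * g * x⁻¹ * g⁻¹, h⟩ : N) = ⟨x, hx⟩ * MulAut.conjNormal g (⟨x, hx⟩⁻¹) := by
      apply Subtype.ext
      simp [MulAut.conjNormal_apply, mul_assoc]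
    rw [h3, hιadd, hιconj, hιinv, map_neg]
    abel
  have hiter : ∀ j, ((fun D : Subgroup H => ⁅D, B⁆)^[j]) N ≤ M (W j) := by
    intro j
    induction j with
    | zero =>
      intro x hx
      rw [hW0]
      exact (hM ⊤ ⟨x, hx⟩).2 trivial
    | succ j ih =>
      rw [Function.iterate_succ_apply']
      refine Subgroup.commutator_le.2 ?_
      intro x hx b hb
      have hxM := ih hx
      have hxN : x ∈ N := hMN _ hxM
      obtain ⟨h1, h2⟩ := hstep x b hxN
      refine (hM (W (j + 1)) ⟨_, h1⟩).2 ?_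
      rw [h2 h1]
      exact (W (j + 1)).neg_mem (hW j _ ((hM _ ⟨x, hxN⟩).1 hxM) b (hBA b hb))
  have hcc : ((fun D : Subgroup H => ⁅D, B⁆)^[c + 1]) N ≤ ⁅N, N⁆ := by
    rw [Function.iterate_succ_apply']
    refine Subgroup.commutator_le.2 ?_
    intro x hx g hg'
    have hxM := hiter c hx
    have hxN : x ∈ N := hMN _ hxM
    have h1 : ι ⟨x, hxN⟩ = 0 := by
      have := (hM _ ⟨x, hxN⟩).1 hxM
      rw [hWc] at this
      exact (Submodule.mem_bot ℚ).1 this
    have h2 : θ (⟨x, hxN⟩⁻¹) = 0 := by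
      rw [hθinv]
      ext l
      have := congrFun h1 l
      simp only [hι, Pi.zero_apply, Int.cast_eq_zero] at this
      simp [this]
    have h3 := hG₁' g (hBG g hg') (⟨x, hxN⟩⁻¹) h2
    have h4 : ⁅x, g⁆ = x * (g * x⁻¹ * g⁻¹ * (x⁻¹)⁻¹) * x⁻¹ := by
      rw [commutatorElement_def]; group
    rw [h4]
    exact (inferInstance : (⁅N, N⁆ : Subgroup H).Normal).conj_mem _ h3 x
  obtain ⟨c', hc'⟩ := hall H N B hNnil (c + 1) hcc
  -- the descending series
  have cd1 : CD B ⊤ C := by
    refine ⟨1, fun j => if j = 0 then ⊤ else C, by simp, by simp, ?_⟩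
    intro j x _ h hh
    beta_reduce
    rw [if_neg (Nat.succ_ne_zero j)]
    exact hBC _ (B.mul_mem (hBn.conj_mem h hh x) (B.inv_mem hh))
  have cd2 : CD B C N := by
    obtain ⟨k, hk⟩ := (Subgroup.isNilpotent_iff_lowerCentralSeries Q).1 hQnil
    refine ⟨k, fun j => (Q.lowerCentralSeries j).comap (QuotientGroup.mk' N), ?_, ?_, ?_⟩
    · beta_reduce
      rw [Subgroup.lowerCentralSeries_zero, hC]
    · beta_reduce
      rw [hk, MonoidHom.comap_bot, QuotientGroup.ker_mk']
    · intro j x hx h hh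
      have hhC := hBC h hh
      rw [hC] at hhC
      rw [Subgroup.mem_comap] at hx hhC ⊢
      rw [Subgroup.lowerCentralSeries_succ]
      have := Subgroup.commutator_mem_commutator hx hhC
      simpa [commutatorElement_def] using this
  have cd3 : CD B N ⊥ := by
    refine ⟨c', fun j => ((fun D : Subgroup H => ⁅D, B⁆)^[j]) N, rfl, hc', ?_⟩
    intro j x hx h hh
    beta_reduce
    rw [Function.iterate_succ_apply']
    exact Subgroup.commutator_mem_commutator hx hh
  exact ⟨B, hBfi, ((cd1.trans cd2).trans cd3).isNilpotent⟩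

end Pool.Agent.Helper10.ST
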