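import Pool.Agent.Helper5.ST.GoalsC

/-!
Packet NUM: the numerical parameters.
-/

namespace Pool.Agent.Helper10.ST

open Pool.Agent.Helper5.ST

theorem ulen_eq (l0 K i : ℕ) : 3 * ulen l0 K i + 2 * (K * l0) = 4 ^ i * (3 * l0 + 2 * (K * l0)) := by
  induction i with
  | zero => simp [ulen]
  | succ i ih =>
    rw [pow_succ, show 4 ^ i * 4 * (3 * l0 + 2 * (K * l0)) = 4 * (4 ^ i * (3 * l0 + 2 * (K * l0))) by
      ring, ← ih]
    simp only [ulen]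
    ring

theorem ulen_le (l0 K i : ℕ) : ulen l0 K i ≤ 4 ^ i * ((K + 1) * l0) := by
  have h := ulen_eq l0 K i
  have h2 : 3 * ulen l0 K i ≤ 3 * (4 ^ i * ((K + 1) * l0)) := by
    calc 3 * ulen l0 K i ≤ 3 * ulen l0 K i + 2 * (K * l0) := Nat.le_add_right _ _
      _ = 4 ^ i * (3 * l0 + 2 * (K * l0)) := h
      _ ≤ 4 ^ i * (3 * l0 + 3 * (K * l0)) := by gcongr; norm_num
      _ = 3 * (4 ^ i * ((K + 1) * l0)) := by ring
  omega

theorem ulen_pos (l0 K i : ℕ) (h : 1 ≤ l0) : 1 ≤ ulen l0 K i := by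
  induction i with
  | zero => simpa [ulen] using h
  | succ i ih =>
    simp only [ulen]
    omega

theorem mlen_le (m ℓ J : ℕ) (hm : 1 ≤ m) : mlen m ℓ J ≤ m * ((ℓ + 1) ^ J) := by
  have key : mlen m ℓ J + m ≤ m * ((ℓ + 1) ^ J) + (if J = 0 then m else 0) → 
    mlen m ℓ J ≤ m * ((ℓ + 1) ^ J) := by
    intro h
    split_ifs at h with h0
    · omega
    · omega
  clear key
  induction J with
  | zero => simp [mlen]
  | succ J ih =>
    simp only [mlen]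
    calc m + mlen m ℓ J * ℓ ≤ m * (ℓ + 1) ^ J + (m * (ℓ + 1) ^ J) * ℓ := by
          gcongr
          exact Nat.le_mul_of_pos_right _ (by positivity)
      _ = m * ((ℓ + 1) ^ (J + 1)) := by ring

theorem sq_le_two_pow (a : ℕ) : a ^ 2 ≤ 2 * 2 ^ a := by
  induction a with
  | zero => norm_num
  | succ a ih =>
    rcases Nat.lt_or_ge a 3 with h | h
    · interval_cases a <;> norm_num
    · have h1 : (a + 1) ^ 2 ≤ 2 * a ^ 2 := by nlinarith
      calc (a + 1) ^ 2 ≤ 2 * a ^ 2 := h1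
        _ ≤ 2 * (2 * 2 ^ a) := by omega
        _ = 2 * 2 ^ (a + 1) := by ring

/-- Bounds for all the parameters by powers of `2`. -/
theorem num_aux (d v : ℕ) (hd : 1 ≤ d) (hv : 10 ^ 8 * d ^ 3 ≤ v) :
    ∃ (e : ℕ), e * (25 * d + 1) ≤ v ∧ 26 * e ≤ v ∧ 100 ≤ e ∧ 
      100 * d * v + 2 ≤ 2 ^ e ∧ d ^ 3 ≤ 2 ^ e ∧ 25 * d + 1 ≤ 2 ^ e ∧
      2 * 19 ^ ((160 * d) ^ 2) + 1 ≤ 2 ^ e ∧
      4 ^ (7 * Nat.log 2 (100 * d * v + 1) + 18 + (Nat.clog 2 (100 * d * v + 1) + 1) +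
        (Nat.clog 2 (50 * v) + 1)) * ((100 * d * v + 1 + 1) * (2 * 19 ^ ((160 * d) ^ 2) + 1)) + 1
        ≤ 2 ^ e := by
  obtain ⟨a, ha⟩ : ∃ a, a = Nat.log 2 v := ⟨_, rfl⟩
  have hv0 : v ≠ 0 := by
    have : 1 ≤ d ^ 3 := Nat.one_le_pow _ _ hd
    omega
  have hd3 : d ≤ d ^ 3 := by
    calc d = d ^ 1 := (pow_one d).symm
      _ ≤ d ^ 3 := Nat.pow_le_pow_right hd (by norm_num)
  have hd2 : d ^ 2 ≤ d ^ 3 := Nat.pow_le_pow_right hd (by norm_num)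
  have h1d3 : 1 ≤ d ^ 3 := Nat.one_le_pow _ _ hd
  have hav : 2 ^ a ≤ v := by rw [ha]; exact Nat.pow_log_le_self 2 hv0
  have hva : v < 2 ^ (a + 1) := by rw [ha]; exact Nat.lt_pow_succ_log_self (by norm_num) v
  have hda : 10 ^ 4 * (d * a) ≤ 2 * v := by
    have h1 : (10 ^ 4 * (d * a)) ^ 2 ≤ (2 * v) ^ 2 := by
      calc (10 ^ 4 * (d * a)) ^ 2 = 10 ^ 8 * d ^ 2 * a ^ 2 := by ring
        _ ≤ 10 ^ 8 * d ^ 3 * (2 * 2 ^ a) := by
          exact Nat.mul_le_mul (Nat.mul_le_mul_left _ hd2) (sq_le_two_pow a)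
        _ ≤ v * (2 * v) := by gcongr
        _ ≤ (2 * v) ^ 2 := by nlinarith
    exact (Nat.pow_le_pow_iff_left (by norm_num)).1 h1
  have hK : 100 * d * v + 1 + 1 ≤ 2 ^ (2 * a + 9) := by
    have h1 : d ≤ v := by omega
    have h2 : 100 * d * v + 2 ≤ 2 ^ 7 * v ^ 2 := by
      have : 1 ≤ v := Nat.one_le_iff_ne_zero.2 hv0
      nlinarith
    calc 100 * d * v + 1 + 1 ≤ 2 ^ 7 * v ^ 2 := h2
      _ ≤ 2 ^ 7 * (2 ^ (a + 1)) ^ 2 := by gcongr
      _ = 2 ^ (2 * a + 9) := by rw [← pow_mul, ← pow_add]; congr 1; ring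
  have hlogK : Nat.log 2 (100 * d * v + 1) ≤ 2 * a + 8 := by
    have : Nat.log 2 (100 * d * v + 1) < 2 * a + 9 :=
      Nat.log_lt_of_lt_pow (by omega) (by omega)
    omega
  have hclogK : Nat.clog 2 (100 * d * v + 1) ≤ 2 * a + 9 :=
    Nat.clog_le_of_le_pow (by omega)
  have hL : Nat.clog 2 (50 * v) ≤ a + 7 := by
    apply Nat.clog_le_of_le_pow
    calc 50 * v ≤ 2 ^ 6 * 2 ^ (a + 1) := by
          gcongr
          norm_num
      _ = 2 ^ (a + 7) := by rw [← pow_add]; congr 1; ring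
  have h19 : 2 * 19 ^ ((160 * d) ^ 2) + 1 ≤ 2 ^ (108800 * d ^ 2 + 2) := by
    have h1 : 19 ^ ((160 * d) ^ 2) ≤ 2 ^ (108800 * d ^ 2) := by
      calc 19 ^ ((160 * d) ^ 2) = (19 ^ 4) ^ (6400 * d ^ 2) := by
            rw [← pow_mul]; congr 1; ring
        _ ≤ (2 ^ 17) ^ (6400 * d ^ 2) := Nat.pow_le_pow_left (by norm_num) _
        _ = 2 ^ (108800 * d ^ 2) := by rw [← pow_mul]; congr 1; ring
    have h2 : 1 ≤ 2 ^ (108800 * d ^ 2) := Nat.one_le_two_pow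
    rw [pow_add]
    omega
  refine ⟨36 * a + 196 + 108800 * d ^ 2, ?_, ?_, by omega, ?_, ?_, ?_, ?_, ?_⟩
  · -- key inequality
    have h1 : (36 * a + 196 + 108800 * d ^ 2) * (25 * d + 1) ≤
        (36 * a + 196 + 108800 * d ^ 2) * (26 * d) := by
      gcongr
      omega
    have h2 : (36 * a + 196 + 108800 * d ^ 2) * (26 * d) =
        936 * (d * a) + 5096 * d + 2828800 * d ^ 3 := by ring
    omega
  · have h2 : 26 * (36 * a + 196 + 108800 * d ^ 2) ≤ 936 * (d * a) + 5096 * d + 2828800 * d ^ 3 := by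
      have : a ≤ d * a := Nat.le_mul_of_pos_left _ (by omega)
      omega
    omega
  · calc 100 * d * v + 2 ≤ 2 ^ (2 * a + 9) := hK
      _ ≤ _ := Nat.pow_le_pow_right (by norm_num) (by omega)
  · calc d ^ 3 ≤ v := by omega
      _ ≤ 2 ^ (a + 1) := hva.le
      _ ≤ _ := Nat.pow_le_pow_right (by norm_num) (by omega)
  · calc 25 * d + 1 ≤ v := by omega
      _ ≤ 2 ^ (a + 1) := hva.le
      _ ≤ _ := Nat.pow_le_pow_right (by norm_num) (by omega)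
  · calc _ ≤ 2 ^ (108800 * d ^ 2 + 2) := h19
      _ ≤ _ := Nat.pow_le_pow_right (by norm_num) (by omega)
  · have h4 : 4 ^ (7 * Nat.log 2 (100 * d * v + 1) + 18 + (Nat.clog 2 (100 * d * v + 1) + 1) +
        (Nat.clog 2 (50 * v) + 1)) ≤ 2 ^ (34 * a + 184) := by
      calc _ ≤ 4 ^ (17 * a + 92) := Nat.pow_le_pow_right (by norm_num) (by omega)
        _ = 2 ^ (34 * a + 184) := by
          rw [show (4 : ℕ) = 2 ^ 2 by norm_num, ← pow_mul]; congr 1; ring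
    have h5 := Nat.mul_le_mul h4 (Nat.mul_le_mul hK h19)
    rw [← pow_add, ← pow_add] at h5
    have h6 : 34 * a + 184 + (2 * a + 9 + (108800 * d ^ 2 + 2)) + 1 =
        36 * a + 196 + 108800 * d ^ 2 := by ring
    have h7 : 1 ≤ 2 ^ (34 * a + 184 + (2 * a + 9 + (108800 * d ^ 2 + 2))) := Nat.one_le_two_pow
    have h8 := Nat.add_le_add h5 h7
    rw [← two_mul] at h8
    rw [← h6]
    exact h8.trans_eq (pow_succ' 2 _).symm

theorem num : Pool.Agent.Helper5.ST.SNum := by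
  refine ⟨10 ^ 8, by norm_num, fun d v hd hv => ?_⟩
  obtain ⟨e, heJ, he26, he100, hKe, hde, hJe, hr0e, hℓe⟩ := num_aux d v hd hv
  obtain ⟨K, hK⟩ : ∃ K, K = 100 * d * v + 1 := ⟨_, rfl⟩
  obtain ⟨r₀, hr₀⟩ : ∃ r₀, r₀ = 19 ^ ((160 * d) ^ 2) := ⟨_, rfl⟩
  obtain ⟨L, hL⟩ : ∃ L, L = Nat.clog 2 (50 * v) := ⟨_, rfl⟩
  obtain ⟨r, hr⟩ : ∃ r, r = 7 * Nat.log 2 K + 18 + (Nat.clog 2 K + 1) + (L + 1) := ⟨_, rfl⟩
  obtain ⟨ℓ, hℓ⟩ : ∃ ℓ, ℓ = ulen (2 * r₀ + 1) K r := ⟨_, rfl⟩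
  obtain ⟨M, hM⟩ : ∃ M, M = 2 ^ (50 * v) := ⟨_, rfl⟩
  obtain ⟨m, hm⟩ : ∃ m, m = 2 ^ (10 * v) := ⟨_, rfl⟩
  obtain ⟨J, hJ⟩ : ∃ J, J = 25 * d + 1 := ⟨_, rfl⟩
  obtain ⟨q, hq⟩ : ∃ q, q = 2 ^ (4 * v) := ⟨_, rfl⟩
  obtain ⟨ε, hε⟩ : ∃ ε : ℝ, ε = 10 ^ 7 * K * d ^ 3 / M := ⟨_, rfl⟩
  rw [← hK, ← hr₀, ← hL, ← hr] at hℓe
  rw [← hr₀] at hr0e
  rw [← hJ] at heJ hJe
  have hK1 : K + 1 ≤ 2 ^ e := by omega
  have hKe' : K ≤ 2 ^ e := by omega
  have hℓ1 : 1 ≤ ℓ := by rw [hℓ]; exact ulen_pos _ _ _ (by omega)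
  have hℓe' : ℓ + 1 ≤ 2 ^ e := by
    have h1 := ulen_le (2 * r₀ + 1) K r
    rw [← hℓ] at h1
    omega
  have h4r : 4 ^ r ≤ 2 ^ e := by
    have h1 : 4 ^ r * 1 ≤ 4 ^ r * ((K + 1) * (2 * r₀ + 1)) :=
      Nat.mul_le_mul_left _ (Nat.mul_pos (by omega) (by omega))
    omega
  have hre : r ≤ 2 ^ e := by
    have h1 : r < 4 ^ r := Nat.lt_pow_self (by norm_num)
    omega
  have hJpow : (ℓ + 1) ^ J ≤ 2 ^ v := by
    calc (ℓ + 1) ^ J ≤ (2 ^ e) ^ J := Nat.pow_le_pow_left hℓe' _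
      _ = 2 ^ (e * J) := by rw [← pow_mul]
      _ ≤ 2 ^ v := Nat.pow_le_pow_right (by norm_num) heJ
  have hm1 : 1 ≤ m := by rw [hm]; exact Nat.one_le_two_pow
  have hmlen : mlen m ℓ J ≤ 2 ^ (11 * v) := by
    calc mlen m ℓ J ≤ m * (ℓ + 1) ^ J := mlen_le m ℓ J hm1
      _ ≤ 2 ^ (10 * v) * 2 ^ v := by rw [hm]; gcongr
      _ = 2 ^ (11 * v) := by rw [← pow_add]; congr 1; ring
  have hM0 : 1 ≤ M := by rw [hM]; exact Nat.one_le_two_pow
  have hMR : (0 : ℝ) < M := by exact_mod_cast hM0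
  -- conversion of the real inequalities
  have conv : ∀ A : ℕ, A * (10 ^ 7 * K * d ^ 3) ≤ M → (A : ℝ) * ε ≤ 1 := by
    intro A hA
    rw [hε, ← mul_div_assoc, div_le_one hMR]
    exact_mod_cast hA
  have hKd : 10 ^ 7 * K * d ^ 3 ≤ 2 ^ (24 + 2 * e) := by
    calc 10 ^ 7 * K * d ^ 3 ≤ 2 ^ 24 * 2 ^ e * 2 ^ e :=
          Nat.mul_le_mul (Nat.mul_le_mul (by norm_num) hKe') hde
      _ = 2 ^ (24 + 2 * e) := by rw [← pow_add, ← pow_add]; congr 1; ring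
  have conv2 : ∀ A f : ℕ, A ≤ 2 ^ f → f + (24 + 2 * e) ≤ 50 * v → (A : ℝ) * ε ≤ 1 := by
    intro A f hA hf
    apply conv
    calc A * (10 ^ 7 * K * d ^ 3) ≤ 2 ^ f * 2 ^ (24 + 2 * e) := Nat.mul_le_mul hA hKd
      _ = 2 ^ (f + (24 + 2 * e)) := by rw [← pow_add]
      _ ≤ M := by rw [hM]; exact Nat.pow_le_pow_right (by norm_num) hf
  have hM2d : (M ^ 2) ^ d = 2 ^ (100 * d * v) := by
    rw [hM, ← pow_mul, ← pow_mul]; congr 1; ring
  have hεpos : 0 < ε := by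
    rw [hε]
    have : (0 : ℝ) < K := by exact_mod_cast (show 0 < K by omega)
    have : (0 : ℝ) < d := by exact_mod_cast (show 0 < d by omega)
    positivity
  refine ⟨M, K, r₀, r, L, ℓ, m, q, J, ε, ?_, hM2d, ?_⟩
  · refine
    { d1 := hd
      M1 := hM0
      K1 := by omega
      q1 := by rw [hq]; exact Nat.one_le_two_pow
      ℓ1 := hℓ1
      MK := ?_
      KM := ?_
      big := ?_
      pack := hr₀.ge
      eps := hε
      near := ?_
      len := hℓ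
      eℓ := ?_
      deep := ?_
      Lr := by omega
      rr := by omega
      R1 := ?_
      R2 := ?_
      mq := ?_
      mM := ?_
      R3 := ?_
      J1 := ?_
      J2 := ?_
      J3 := ?_ }
    · rw [hM2d, hK]
      exact Nat.pow_lt_pow_right (by norm_num) (by omega)
    · calc K ≤ 2 ^ e := hKe'
        _ ≤ M := by rw [hM]; exact Nat.pow_le_pow_right (by norm_num) (by omega)
    · calc 10 ^ 12 * K ^ 2 * d ^ 3 ≤ 2 ^ 40 * (2 ^ e) ^ 2 * 2 ^ e :=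
            Nat.mul_le_mul (Nat.mul_le_mul (by norm_num) (Nat.pow_le_pow_left hKe' 2)) hde
        _ = 2 ^ (40 + 3 * e) := by rw [← pow_mul, ← pow_add, ← pow_add]; congr 1; ring
        _ ≤ 2 ^ (50 * v * 2) := Nat.pow_le_pow_right (by norm_num) (by omega)
        _ = M ^ 2 := by rw [hM, ← pow_mul]
    · have h1 : 200 * (r₀ + 1) ≤ 2 ^ (8 + e) := by
        calc 200 * (r₀ + 1) ≤ 2 ^ 8 * 2 ^ e := Nat.mul_le_mul (by norm_num) (by omega)
          _ = 2 ^ (8 + e) := by rw [← pow_add]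
      have h2 := conv2 _ _ h1 (by omega)
      push_cast at h2
      exact h2
    · have h1 : 320 * ℓ ≤ 2 ^ (9 + e) := by
        calc 320 * ℓ ≤ 2 ^ 9 * 2 ^ e := Nat.mul_le_mul (by norm_num) (by omega)
          _ = 2 ^ (9 + e) := by rw [← pow_add]
      have h2 := conv2 _ _ h1 (by omega)
      push_cast at h2
      linarith [h2, (by ring : (320 : ℝ) * ε * ℓ = 320 * ℓ * ε)]
    · -- deep
      have h1 : 50 * v ≤ 2 ^ L := by rw [hL]; exact Nat.le_pow_clog (by norm_num) _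
      have h2 : (1 / 4 : ℝ) ^ (2 ^ L) ≤ (1 / 4) ^ (50 * v) :=
        pow_le_pow_of_le_one (by norm_num) (by norm_num) h1
      have h3 : (1 / 4 : ℝ) ^ (50 * v) ≤ (1 / 2) ^ (50 * v) :=
        pow_le_pow_left₀ (by norm_num) (by norm_num) _
      have h4 : (1 / 2 : ℝ) ^ (50 * v) = 1 / M := by
        rw [hM, one_div_pow]; push_cast; rfl
      have h5 : (1 : ℝ) / M ≤ ε := by
        rw [hε]
        apply div_le_div_of_nonneg_right _ hMR.le
        have : 1 ≤ 10 ^ 7 * K * d ^ 3 := by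
          have h1 : 1 ≤ K := by omega
          have h2 : 1 ≤ d ^ 3 := Nat.one_le_pow _ _ hd
          exact Nat.mul_pos (by omega) h2
        exact_mod_cast this
      have h6 : ε ≤ 2 * ε * ℓ := by
        have : (1 : ℝ) ≤ ℓ := by exact_mod_cast hℓ1
        nlinarith
      linarith
    · calc (2 * r₀ + 1) * (136 * 4 ^ 18 * K ^ 20) ≤ 2 ^ e * (2 ^ 44 * (2 ^ e) ^ 20) := by
            gcongr
            norm_num
        _ = 2 ^ (44 + 21 * e) := by rw [← pow_mul, ← pow_add, ← pow_add]; congr 1; ring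
        _ ≤ 2 ^ (50 * v * 4) := Nat.pow_le_pow_right (by norm_num) (by omega)
        _ = M ^ 4 := by rw [hM, ← pow_mul]
    · calc (2 * r₀ + 1) * (K * (4 ^ r * (K + 1))) ≤ 2 ^ e * (2 ^ e * (2 ^ e * 2 ^ e)) := by
            gcongr
        _ = 2 ^ (4 * e) := by rw [← pow_add, ← pow_add, ← pow_add]; congr 1; ring
        _ ≤ 2 ^ (50 * v * 4) := Nat.pow_le_pow_right (by norm_num) (by omega)
        _ = M ^ 4 := by rw [hM, ← pow_mul]
    · calc 32 * q ^ 2 * K ≤ 2 ^ 5 * (2 ^ (4 * v)) ^ 2 * 2 ^ e := by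
            rw [hq]
            gcongr
            norm_num
        _ = 2 ^ (5 + 8 * v + e) := by rw [← pow_mul, ← pow_add, ← pow_add]; congr 1; ring
        _ ≤ 2 ^ (10 * v) := Nat.pow_le_pow_right (by norm_num) (by omega)
        _ = m := hm.symm
    · calc 10 ^ 9 * m * K ^ 2 * d ^ 3 ≤ 2 ^ 30 * 2 ^ (10 * v) * (2 ^ e) ^ 2 * 2 ^ e := by
            rw [hm]
            exact Nat.mul_le_mul (Nat.mul_le_mul (Nat.mul_le_mul (by norm_num) le_rfl)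
              (Nat.pow_le_pow_left hKe' 2)) hde
        _ = 2 ^ (30 + 10 * v + 3 * e) := by
          rw [← pow_mul, ← pow_add, ← pow_add, ← pow_add]; congr 1; ring
        _ ≤ 2 ^ (50 * v) := Nat.pow_le_pow_right (by norm_num) (by omega)
        _ = M := hM.symm
    · have h1 : J * (r * K) + 1 ≤ 2 ^ (3 * e + 1) := by
        have h2 : J * (r * K) ≤ 2 ^ (3 * e) := by
          calc J * (r * K) ≤ 2 ^ e * (2 ^ e * 2 ^ e) := by gcongr
            _ = 2 ^ (3 * e) := by rw [← pow_add, ← pow_add]; congr 1; ring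
        have h3 : 1 ≤ 2 ^ (3 * e) := Nat.one_le_two_pow
        rw [pow_succ]; omega
      calc (2 * r₀ + 1) * (33 * (J * (r * K) + 1) ^ 6 * K)
          ≤ 2 ^ e * (2 ^ 6 * (2 ^ (3 * e + 1)) ^ 6 * 2 ^ e) := by
            gcongr
            norm_num
        _ = 2 ^ (12 + 20 * e) := by
          rw [← pow_mul, ← pow_add, ← pow_add, ← pow_add]; congr 1; ring
        _ ≤ 2 ^ (50 * v * 6) := Nat.pow_le_pow_right (by norm_num) (by omega)
        _ = M ^ 6 := by rw [hM, ← pow_mul]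
    · rw [hM2d, hq, ← pow_mul, hJ]
      apply Nat.pow_lt_pow_right (by norm_num)
      have : 4 * v * (25 * d + 1) = 100 * d * v + 4 * v := by ring
      omega
    · have h1 : 400 * (mlen m ℓ J) ^ 2 ≤ 2 ^ (9 + 22 * v) := by
        calc 400 * (mlen m ℓ J) ^ 2 ≤ 2 ^ 9 * (2 ^ (11 * v)) ^ 2 := by
              gcongr
              norm_num
          _ = 2 ^ (9 + 22 * v) := by rw [← pow_mul, ← pow_add]; congr 1; ring
      have h2 := conv2 _ _ h1 (by omega)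
      push_cast at h2
      linarith [h2, (by ring : (400 : ℝ) * ε * (mlen m ℓ J : ℝ) ^ 2 =
        400 * (mlen m ℓ J : ℝ) ^ 2 * ε)]
    · calc mlen m ℓ J ≤ 2 ^ (11 * v) := hmlen
        _ ≤ 2 ^ (50 * v * 6) := Nat.pow_le_pow_right (by norm_num) (by omega)
        _ = M ^ 6 := by rw [hM, ← pow_mul]
        _ ≤ ℓ ^ J * M ^ 6 := Nat.le_mul_of_pos_left _ (pow_pos (by omega) _)
  · calc ℓ ^ J * M ^ 6 ≤ (ℓ + 1) ^ J * M ^ 6 := by
          gcongr
          omega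
      _ ≤ 2 ^ v * 2 ^ (300 * v) := by
          refine Nat.mul_le_mul hJpow ?_
          rw [hM, ← pow_mul]
          exact Nat.pow_le_pow_right (by norm_num) (by omega)
      _ = 2 ^ (301 * v) := by rw [← pow_add]; congr 1; ring
      _ ≤ 2 ^ (400 * v) := Nat.pow_le_pow_right (by norm_num) (by omega)

end Pool.Agent.Helper10.ST
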